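import Pool.Agent.H95.NV.Targets3

/-!
# Nonvanishing over totally real fields: the number of the discriminants of the enlarged family
-/

set_option autoImplicit false

open MeasureTheory Set Filter NumberField
open scoped Real nonZeroDivisors

namespace Pool.Agent.H11.NV

open Pool.Agent.H95.NV
open Pool.Agent.H65.CM4 (Pl rv nm dk dg V2 Fo)
open Pool.Agent.H89.NV (PrI np nS idS ni q4 Dis Fnd good bD Rs em qN dR kf GW T_CNT)

open Classical in
theorem pf_CGD (hFDN : T_FDN) : T_CGD := by
  intro k _ _ _ hCNT f R G η ε hf hG hε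
  obtain ⟨hq, hgf, hper, hcard⟩ := hFDN k f R hf
  have hn0 : nm (qN R) ≠ 0 := by
    unfold Pool.Agent.H65.CM4.nm
    have h1 : Ideal.absNorm (qN R) ≠ 0 := by
      rw [Ne, Ideal.absNorm_eq_zero_iff]
      exact hq
    exact_mod_cast h1
  obtain ⟨T₀, hT₀⟩ := hCNT f (qN R) G η 1 ε hf hq hG hε
  refine ⟨T₀, fun T hT => ?_⟩
  have h := hT₀ T hT (fun D => if good f R D then (1 : ℝ) else 0) ?_ ?_
  · have e1 : (∑' D : 𝓞 k, if D ∈ f ^ 2 then (if good f R D then (1 : ℝ) else 0) *
          G (fun v => em D v / T) else 0) =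
        ∑' D : 𝓞 k, if good f R D then G (fun v => em D v / T) else 0 := by
      refine tsum_congr fun D => ?_
      by_cases hg : good f R D
      · rw [if_pos (hgf D hg), if_pos hg, if_pos hg, one_mul]
      · by_cases hD : D ∈ f ^ 2
        · rw [if_pos hD, if_neg hg, if_neg hg, zero_mul]
        · rw [if_neg hD, if_neg hg]
    have e2 : ∑ x ∈ (Rs (qN R * f ^ 2)).filter (fun x => x ∈ f ^ 2),
        (if good f R x then (1 : ℝ) else 0) = nm (qN R) * dR R := by
      rw [← hcard, ← Finset.sum_filter, Finset.sum_const, nsmul_eq_mul, mul_one,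
        Finset.filter_filter]
    have e3 : kf f * T ^ dg k * (∫ u, G u) * (nm (qN R) * dR R / nm (qN R)) =
        T ^ dg k * kf f * dR R * ∫ u, G u := by
      rw [mul_div_cancel_left₀ _ hn0]
      ring
    have h' := h
    beta_reduce at h'
    rw [e1, e2, e3] at h'
    exact h'
  · intro x
    beta_reduce
    by_cases hg : good f R x
    · rw [if_pos hg, abs_one]
    · rw [if_neg hg, abs_zero]
      norm_num
  · intro x y hy
    beta_reduce
    by_cases hg : good f R x
    · rw [if_pos hg, if_pos ((hper x y hy).2 hg)]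
    · rw [if_neg hg, if_neg fun h => hg ((hper x y hy).1 h)]

end Pool.Agent.H11.NV
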