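import Pool.Agent.H95.NV.Targets2

/-! Row CHC of the board `nva_modules`: the characters trivial on `k`. -/

set_option autoImplicit false

open NumberField
open scoped nonZeroDivisors

namespace Pool.Agent.H11.NV

open Pool.Agent.H95.NV
open Pool.Agent.H89.NV (TrK)

theorem dual_finite (G : Type) [CommGroup G] [Finite G] : Finite (G →* ℂˣ) := by
  have h0 : NeZero (Monoid.exponent G) := ⟨Monoid.exponent_ne_zero_of_finite⟩
  have h1 : Nat.card (G →* ℂˣ) = Nat.card G :=
    CommGroup.card_monoidHom_of_hasEnoughRootsOfUnity G ℂ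
  refine Nat.finite_of_card_ne_zero ?_
  rw [h1]
  exact Nat.card_pos.ne'

section

variable {k K : Type} [Field k] [NumberField k] [Field K] [NumberField K] [Algebra k K]

theorem TrK_iff (ψ : ClassGroup (𝓞 K) →* ℂˣ) : TrK k K ψ ↔ ψ ∈ Chk k K := by
  constructor
  · intro h I
    exact h I.1 (ext I) rfl
  · intro h I J hJ
    have hI : I ∈ (Ideal (𝓞 k))⁰ := by
      rw [mem_nonZeroDivisors_iff_ne_zero]
      intro h0
      have h1 : I = ⊥ := h0
      rw [h1, Ideal.map_bot] at hJ
      exact nonZeroDivisors.ne_zero J.2 hJ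
    have hJ' : J = ext (K := K) ⟨I, hI⟩ := Subtype.ext hJ
    rw [hJ']
    exact h ⟨I, hI⟩

/-- from characters of the quotient to characters trivial on the ideals of `k` -/
noncomputable def fwd (φ : Gk k K →* ℂˣ) : {ψ : ClassGroup (𝓞 K) →* ℂˣ // TrK k K ψ} :=
  ⟨φ.comp (QuotientGroup.mk' (Hk k K)), (TrK_iff _).2 (fun I => by
    have h1 : ClassGroup.mk0 (ext (K := K) I) ∈ Hk k K :=
      Subgroup.subset_closure ⟨I, rfl⟩
    have h2 : QuotientGroup.mk' (Hk k K) (ClassGroup.mk0 (ext (K := K) I)) = 1 :=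
      (QuotientGroup.eq_one_iff _).2 h1
    rw [MonoidHom.comp_apply, h2, map_one])⟩

theorem fwd_bij : Function.Bijective (fwd (k := k) (K := K)) := by
  constructor
  · intro φ φ' h
    have h1 : φ.comp (QuotientGroup.mk' (Hk k K)) = φ'.comp (QuotientGroup.mk' (Hk k K)) :=
      congrArg Subtype.val h
    exact (MonoidHom.cancel_right (QuotientGroup.mk'_surjective _)).1 h1
  · intro ψ
    have h0 : Hk k K ≤ ψ.1.ker := by
      unfold Hk
      rw [Subgroup.closure_le]
      rintro _ ⟨I, rfl⟩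
      exact (TrK_iff _).1 ψ.2 I
    refine ⟨QuotientGroup.lift (Hk k K) ψ.1 (fun x hx => h0 hx), Subtype.ext ?_⟩
    ext x
    rfl

end

theorem pf_CHC (hHKC : T_HKC) : T_CHC := by
  intro k K _ _ _ _ _
  obtain ⟨_, _, hcard, _, _⟩ := hHKC k K
  refine ⟨inferInstance, dual_finite _, Equiv.ofBijective fwd fwd_bij, fun φ x => rfl,
    fun φ => ?_, ?_⟩
  · constructor
    · intro h
      show φ.comp (QuotientGroup.mk' (Hk k K)) * φ.comp (QuotientGroup.mk' (Hk k K)) = 1
      ext x
      have h1 := DFunLike.congr_fun h (QuotientGroup.mk' (Hk k K) x)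
      simpa using congrArg Units.val h1
    · intro h
      have h0 : φ.comp (QuotientGroup.mk' (Hk k K)) * φ.comp (QuotientGroup.mk' (Hk k K)) = 1 := h
      refine MonoidHom.ext fun y => ?_
      obtain ⟨x, rfl⟩ := QuotientGroup.mk'_surjective (Hk k K) y
      have h1 := DFunLike.congr_fun h0 x
      exact h1
  · rw [← hcard, ← Nat.card_coe_set_eq]
    exact Nat.card_congr (Equiv.subtypeEquivRight fun ψ => TrK_iff ψ)

end Pool.Agent.H11.NV
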