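import Pool.Agent.H95.NV.Targets2

/-! Row FMX of the board `nva_modules`: there is a form for every class. -/

set_option autoImplicit false

open NumberField
open scoped nonZeroDivisors

namespace Pool.Agent.H11.NV

open Pool.Agent.H95.NV

theorem exi {k K : Type} [Field k] [NumberField k] [IsTotallyReal k] [Field K] [NumberField K]
    [Algebra k K] [Algebra.IsQuadraticExtension k K] (hIDX : T_IDX) (hIDC : T_IDC)
    {f : Ideal (𝓞 k)} {D b₀ : 𝓞 k} {δ : K} (h : KD f D b₀ δ) (x : Gk k K) :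
    ∃ (A : Ideal (𝓞 k)) (b : 𝓞 k) (I : (Ideal (𝓞 K))⁰), Adm f D A b ∧
      (I : Ideal (𝓞 K)) = Id f A b δ ∧ cl k K I = x⁻¹ ∧ (x = 1 → A = ⊤ ∧ b = b₀) := by
  by_cases hx : x = 1
  · obtain ⟨_, _, _, h4, _⟩ := hIDC k K f D b₀ δ h ⊤ b₀ h.adm
    refine ⟨⊤, b₀, 1, h.adm, ?_, ?_, fun _ => ⟨rfl, rfl⟩⟩
    · rw [h4]
      exact Ideal.one_eq_top
    · unfold cl
      rw [hx, inv_one, map_one]
      rfl
  · obtain ⟨y, hy⟩ := QuotientGroup.mk_surjective x⁻¹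
    obtain ⟨J, hJ⟩ := ClassGroup.mk0_surjective y
    have hJ0 : (J : Ideal (𝓞 K)) ≠ ⊥ := nonZeroDivisors.ne_zero J.2
    obtain ⟨e, A, b, he, hA, hJe⟩ := hIDX k K f D b₀ δ h (J : Ideal (𝓞 K)) hJ0
    obtain ⟨_, _, _, _, h5⟩ := hIDC k K f D b₀ δ h A b hA
    have hI0 : Id f A b δ ∈ (Ideal (𝓞 K))⁰ := mem_nonZeroDivisors_iff_ne_zero.2 h5
    have he0 : e ∈ (Ideal (𝓞 k))⁰ := mem_nonZeroDivisors_iff_ne_zero.2 he
    have hprod : J = ext (K := K) ⟨e, he0⟩ * ⟨Id f A b δ, hI0⟩ := Subtype.ext hJe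
    refine ⟨A, b, ⟨Id f A b δ, hI0⟩, hA, rfl, ?_, fun h0 => absurd h0 hx⟩
    have h6 : ClassGroup.mk0 (ext (K := K) ⟨e, he0⟩) ∈ Hk k K :=
      Subgroup.subset_closure ⟨⟨e, he0⟩, rfl⟩
    have h7 : (QuotientGroup.mk (ClassGroup.mk0 (ext (K := K) ⟨e, he0⟩)) : Gk k K) = 1 :=
      (QuotientGroup.eq_one_iff _).2 h6
    rw [← hy, ← hJ, hprod, map_mul, QuotientGroup.mk_mul, h7, one_mul]
    rfl

theorem pf_FMX (hIDX : T_IDX) (hIDC : T_IDC) : T_FMX := by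
  intro k K _ _ _ _ _ _ _ f D b₀ δ h
  choose A b I h1 h2 h3 h4 using fun x : Gk k K => exi hIDX hIDC h x
  exact ⟨A, b, I, ⟨h1, h2, h3⟩, (h4 1 rfl).1, (h4 1 rfl).2⟩

end Pool.Agent.H11.NV
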