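import Pool.Agent.H95.NV.Targets3

/-!
# Nonvanishing over totally real fields: the values of the proportion
-/

set_option autoImplicit false

open MeasureTheory Set Filter NumberField
open scoped Real nonZeroDivisors

namespace Pool.Agent.H11.NV

open Pool.Agent.H95.NV
open Pool.Agent.H65.CM4 (Pl rv nm dk dg V2 Fo)
open Pool.Agent.H89.NV (PrI np nS idS ni q4 Dis Fnd good bD Rs em qN dR kf GW T_CNT tp T_PRO Z1 S2
  SD CD CK prp sd)

theorem pf_PFC (hEXK : T_EXK) (hBRK : T_BRK) : T_PFC := by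
  intro k _ _ _ hPRO pf hpf hval
  refine ⟨hpf, fun f D hf hD hF hsd P M R => ?_⟩
  obtain ⟨K, iF, iN, iA, iQ, δ, hδ⟩ := hEXK k D hD
  obtain ⟨h, hs⟩ := (hBRK k K D).2 hD iQ δ hδ
  have hDis : Dis f D := hF.1
  have hb : bD f D ∈ f ∧ bD f D ^ 2 + D ∈ ni k 4 * f ^ 2 := by
    unfold Pool.Agent.H89.NV.bD
    rw [dif_pos hDis]
    exact hDis.choose_spec
  obtain ⟨_, _, h3⟩ := hPRO f D (bD f D) K h hf hD hF hb.1 hb.2 hsd
  have h4 := h3 (SD M R) (CD P M f R (bD f D) (q4 (bD f D ^ 2 + D)))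
  rw [hval D K h] at h4
  unfold Pool.Agent.H89.NV.Z1 Pool.Agent.H89.NV.S2
  exact h4

end Pool.Agent.H11.NV
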