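import Pool.Agent.H95.NV.Targets2

/-! Row TRA of the board `nva_modules`: trivial automorphisms. -/

set_option autoImplicit false

open NumberField
open scoped nonZeroDivisors

namespace Pool.Agent.H11.NV

open Pool.Agent.H95.NV
open Pool.Agent.H65.CM4 (Pl rv nm dk dg V2 Fo)
open Pool.Agent.H89.NV (PrI np nS idS ni q4 Dis Fnd good rts nuP nu Zc Uf CK Lam hom Ineq em tp sd
  TrK prp)

section

variable {k K : Type} [Field k] [NumberField k] [Field K] [NumberField K] [Algebra k K]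

/-- the inclusion of the integers of `K` -/
noncomputable def ll : 𝓞 K →ₗ[𝓞 k] K := (IsScalarTower.toAlgHom (𝓞 k) (𝓞 K) K).toLinearMap

/-- the lattice of an ideal of `K` -/
noncomputable def lat (F : Ideal (𝓞 K)) : Submodule (𝓞 k) K :=
  (Submodule.restrictScalars (𝓞 k) (F : Submodule (𝓞 K) (𝓞 K))).map (ll (k := k))

theorem ll_apply (x : 𝓞 K) : ll (k := k) x = (x : K) := rfl

theorem lat_mul (x : 𝓞 K) (F : Ideal (𝓞 K)) :
    (lat (k := k) F).map (LinearMap.mulLeft (𝓞 k) (x : K)) = lat (Ideal.span {x} * F) := by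
  ext z
  constructor
  · rintro ⟨_, ⟨t, ht, rfl⟩, rfl⟩
    refine ⟨x * t, ?_, ?_⟩
    · exact Ideal.mul_mem_mul (Ideal.mem_span_singleton_self x) ht
    · rw [ll_apply, ll_apply, LinearMap.mulLeft_apply]
      exact map_mul (algebraMap (𝓞 K) K) x t
  · rintro ⟨t, ht, rfl⟩
    have ht' : t ∈ Ideal.span {x} * F := ht
    obtain ⟨s, hs, rfl⟩ := Ideal.mem_span_singleton_mul.1 ht'
    refine ⟨(s : K), ⟨s, hs, rfl⟩, ?_⟩
    rw [ll_apply, LinearMap.mulLeft_apply]
    exact (map_mul (algebraMap (𝓞 K) K) x s).symm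

theorem smul_lat (J : Ideal (𝓞 k)) (F : Ideal (𝓞 K)) :
    J • lat (k := k) F = lat (J.map (algebraMap (𝓞 k) (𝓞 K)) * F) := by
  unfold lat
  rw [← Submodule.map_smul'', ← Ideal.smul_restrictScalars]
  rfl

end

theorem pf_TRA (hFUN : T_FUN) (hKDM : T_KDM) (hIDC : T_IDC) (hBRA : T_BRA) (hBRK : T_BRK) :
    T_TRA := by
  intro k _ _ _ hAUT K _ _ _ f D b h hf htp hF hb hbD
  obtain ⟨hquad, hs2, him, hLam⟩ := (hBRK k K D).1 h
  obtain ⟨_, _, hB3, _, hB5⟩ := hBRA k
  have hAdm : Adm f D ⊤ b := by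
    refine (hB3 f ⊤ D b top_ne_bot).2 ⟨hb, ?_⟩
    rw [← Ideal.one_eq_top, one_mul]
    exact hbD
  have hFun : Fun f D := (hB5 f D hf).1 hF
  obtain ⟨b', hKD'⟩ := hFUN k K f D h.s htp hs2 hFun
  have hKD : KD f D b h.s := (hKDM k K f D b' h.s 1 hKD').2 b hAdm
  refine ⟨hKD, fun hsd => ?_⟩
  intro x y a a' hx hy ha ha' heq
  obtain ⟨_, _, hI3, hI4, _⟩ := hIDC k K f D b h.s hKD ⊤ b hAdm
  have hL : Lam h f ⊤ b = lat (f.map (algebraMap (𝓞 k) (𝓞 K))) := by
    ext z
    rw [hLam, hI3, hI4]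
    have h1 : f.map (algebraMap (𝓞 k) (𝓞 K)) * ⊤ = f.map (algebraMap (𝓞 k) (𝓞 K)) := by
      rw [← Ideal.one_eq_top, mul_one]
    rw [h1]
    rfl
  have hxK : (x : K) ≠ 0 := fun h0 => hx (by exact_mod_cast h0)
  have hyK : (y : K) ≠ 0 := fun h0 => hy (by exact_mod_cast h0)
  have hg : h.im ((x : K) / (y : K)) = 0 := by
    refine hAUT f D b hf htp hb hbD hsd K h a' a ((x : K) / (y : K)) ha' ha
      (div_ne_zero hxK hyK) ?_
    have hinj : Function.Injective (LinearMap.mulLeft (𝓞 k) (y : K)) := by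
      intro u v huv
      exact mul_left_cancel₀ hyK huv
    refine Submodule.map_injective_of_injective hinj ?_
    unfold hom
    rw [Submodule.map_smul'', Submodule.map_smul'', ← Submodule.map_comp, ← Submodule.map_comp]
    have h2 : (LinearMap.mulLeft (𝓞 k) (y : K)).comp (LinearMap.mulLeft (𝓞 k) ((x : K) / (y : K))) =
        LinearMap.mulLeft (𝓞 k) (x : K) := by
      refine LinearMap.ext fun z => ?_
      show (y : K) * ((x : K) / (y : K) * z) = (x : K) * z
      field_simp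
    have h3 : (LinearMap.mulLeft (𝓞 k) (y : K)).comp (LinearMap.mulLeft (𝓞 k) (1 : K)) =
        LinearMap.mulLeft (𝓞 k) (y : K) := by
      refine LinearMap.ext fun z => ?_
      show (y : K) * ((1 : K) * z) = (y : K) * z
      rw [one_mul]
    rw [h2, h3, hL, lat_mul, lat_mul, smul_lat, smul_lat]
    congr 1
    rw [← mul_assoc, ← mul_assoc, mul_comm (a.map _), mul_comm (a'.map _), heq]
  obtain ⟨t, ht⟩ := (him _).1 hg
  obtain ⟨p, q, hq, hpq⟩ := IsFractionRing.div_surjective (A := 𝓞 k) t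
  have hq0 : q ≠ 0 := nonZeroDivisors.ne_zero hq
  have hqk : (q : k) ≠ 0 := fun h0 => hq0 (by exact_mod_cast h0)
  have hp0 : p ≠ 0 := by
    intro h0
    rw [h0, map_zero, zero_div] at hpq
    rw [← hpq, map_zero] at ht
    exact div_ne_zero hxK hyK ht
  refine ⟨p, q, hp0, hq0, ?_⟩
  have hqK : algebraMap k K (q : k) ≠ 0 := by
    intro h0
    exact hqk ((map_eq_zero _).1 h0)
  have h4 : (x : K) / (y : K) = algebraMap k K (p : k) / algebraMap k K (q : k) := by
    rw [ht, ← hpq, map_div₀]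
  rw [div_eq_div_iff hyK hqK] at h4
  refine FaithfulSMul.algebraMap_injective (𝓞 K) K ?_
  rw [map_mul, map_mul]
  have h5 : ∀ c : 𝓞 k, algebraMap (𝓞 K) K (algebraMap (𝓞 k) (𝓞 K) c) = algebraMap k K (c : k) :=
    fun c => rfl
  rw [h5, h5]
  show algebraMap k K (q : k) * (x : K) = algebraMap k K (p : k) * (y : K)
  rw [mul_comm, h4]

end Pool.Agent.H11.NV
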